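import Mathlib
import Pool.Agent.N840.MA.Core
import Pool.Agent.N70.EO.VocEB
import Pool.Agent.N70.ES.VocWC
import Pool.Agent.Y793.Ml
import Pool.Agent.TH444.ML.Done

/-!
# Malle's conjecture for `C₂ ≀ H` when `H` is an alternating wreath product or fibre power

`A` is any finite group and `H = A ≀ A_n`, where `n` runs through a set of natural numbers of density
one which depends on `A`, or through all numbers `n = q r (2 k + 1)`, `q ≥ 4` even, `r ≥ r₀(A, q)`,
`k ≥ k₀(A, q, r)`; the group `H` acts on itself by multiplication and `G = C₂ ≀ H` acts on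
`H × {0, 1}`. Then the asymptotic formula of the problem holds for `G` over every number field.

More generally, let `α : B → W` be a surjective homomorphism of finite groups and `H` an alternating
fibre power of `α` (an extension of `W` by `(ker α) ≀ A_n`), for almost all natural numbers `n` and all
characters `χ` of `W` for which this extension splits. Then the asymptotic formula holds for
`G = C₂ ≀ H` over every number field over which `W` is a Galois group, hence over all number fields
which contain `K₀` if `W` is the group of a regular Galois extension of `K₀(t)`, and `G` has no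
extension at all over the number fields over which `W` is not a Galois group.
-/

set_option autoImplicit false

open Filter

namespace Pool.Agent.Results.MP_b39724_nt.OrderTwoOverLargeFields

open Pool.Agent.N70.EP.Voc (AltWreath TwPow Realizable RegularlyRealizable IsSplittingIndex)
open Pool.Agent.N70.EO.Voc (AlmostAllNumbers)
open Pool.Agent.N70.ES.Voc (TwGood EvenFamily OddFamily)

/-- `G ≤ S_d` is, up to a bijection `f` of `{1, ..., d}` with `H × {0, 1}`, the wreath product
`C₂ ≀ H`: it consists of all permutations `π` for which there is `h ∈ H` such that `π` maps the block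
`{x} × {0, 1}` to the block `{h x} × {0, 1}`, for all `x ∈ H`. -/
def IsC2Wreath (H : Type) [Group H] {d : ℕ} (G : Subgroup (Equiv.Perm (Fin d))) : Prop :=
  ∃ f : Fin d ≃ H × Bool, ∀ π : Equiv.Perm (Fin d), π ∈ G ↔ ∃ h : H, ∀ i, (f (π i)).1 = h * (f i).1

/-- The fields `L` between `K` and its algebraic closure, of degree `d` over `K`, whose Galois group,
acting on the embeddings, is `G` (up to numbering), and whose relative discriminant has norm at most
`B` (that is, `|d_L| ≤ B |d_K| ^ d`). -/
def Ext (K : Type) [Field K] [NumberField K] (d : ℕ) (G : Subgroup (Equiv.Perm (Fin d)))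
    (B : ℝ) : Set (IntermediateField K (AlgebraicClosure K)) :=
  {L | Module.finrank K L = d ∧
    (∃ e : (L →ₐ[K] AlgebraicClosure K) ≃ Fin d, ∀ π : Equiv.Perm (Fin d),
      π ∈ G ↔ ∃ σ : AlgebraicClosure K ≃ₐ[K] AlgebraicClosure K,
        ∀ φ : L →ₐ[K] AlgebraicClosure K, e (σ.toAlgHom.comp φ) = π (e φ)) ∧
    ∃ h : NumberField L,
      ((|@NumberField.discr L _ h| : ℤ) : ℝ) ≤ B * ((|NumberField.discr K| : ℤ) : ℝ) ^ d}

/-- `n_K(G, B)`: the number of these fields up to `K`-isomorphism. -/
noncomputable def N (K : Type) [Field K] [NumberField K] (d : ℕ)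
    (G : Subgroup (Equiv.Perm (Fin d))) (B : ℝ) : ℕ :=
  Nat.card (Quot fun L L' : Ext K d G B => Nonempty (L.1 ≃ₐ[K] L'.1))

/-- The index of a permutation: the sum of `length - 1` over its cycles of length at least `2`, that
is, the number of letters minus the number of orbits. -/
def ind {d : ℕ} (g : Equiv.Perm (Fin d)) : ℕ := g.cycleType.sum - Multiset.card g.cycleType

/-- `ind(G)`: the least index of an element `g ≠ 1` of `G`. -/
noncomputable def minInd {d : ℕ} (G : Subgroup (Equiv.Perm (Fin d))) : ℕ :=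
  sInf {k | ∃ g ∈ G, g ≠ 1 ∧ k = ind g}

/-- `K`-conjugacy: `h` is conjugate in `G` to `g ^ a`, where `a` is the value of the cyclotomic
character modulo `|G|` at an automorphism `σ` of the algebraic closure over `K`. -/
def KConj (K : Type) [Field K] {d : ℕ} (G : Subgroup (Equiv.Perm (Fin d))) (g h : G) : Prop :=
  ∃ (ζ : AlgebraicClosure K) (σ : AlgebraicClosure K ≃ₐ[K] AlgebraicClosure K) (a : ℕ),
    IsPrimitiveRoot ζ (Nat.card G) ∧ σ ζ = ζ ^ a ∧ IsConj (g ^ a) h

/-- `β_K(G)`: the number of the `K`-conjugacy classes of index `ind(G)`. -/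
noncomputable def beta (K : Type) [Field K] {d : ℕ} (G : Subgroup (Equiv.Perm (Fin d))) : ℕ :=
  Nat.card (Quot fun g h : {g : G // ind g.1 = minInd G} => KConj K G g.1 h.1)

/-- The asymptotic formula of the problem over `K`:
`n_K(G, B) ~ C B ^ (1 / ind(G)) (log B) ^ (β_K(G) - 1)` for some `C > 0`. -/
def Asymp (K : Type) [Field K] [NumberField K] (d : ℕ) (G : Subgroup (Equiv.Perm (Fin d))) : Prop :=
  ∃ C : ℝ, 0 < C ∧ Tendsto (fun B : ℝ => (N K d G B : ℝ) /
    (B ^ (1 / (minInd G : ℝ)) * Real.log B ^ (beta K G - 1))) atTop (nhds C)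

/-- The group `C₂ ≀ H` exists as a transitive group of degree `2 |H|`. -/
def HasWreath (H : Type) [Group H] : Prop :=
  ∃ (d : ℕ) (G : Subgroup (Equiv.Perm (Fin d))), d = 2 * Nat.card H ∧ IsC2Wreath H G ∧
    ∀ i j : Fin d, ∃ g ∈ G, g i = j

/-- Every group `G = C₂ ≀ H` satisfies the asymptotic formula over all number fields over which `W` is
a Galois group, and it has no extensions over the other number fields. If `W` is the group of a
regular Galois extension of `K₀(t)`, the asymptotic formula holds over all number fields which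
contain `K₀`. -/
def Governed (H W : Type) [Group H] [Group W] : Prop :=
  ∀ (d : ℕ) (G : Subgroup (Equiv.Perm (Fin d))), IsC2Wreath H G →
    (∀ (K : Type) [Field K] [NumberField K], (Realizable K W → Asymp K d G) ∧
      (¬ Realizable K W → ∀ B : ℝ, Ext K d G B = ∅)) ∧
    ∀ (K₀ : Type) [Field K₀] [NumberField K₀], RegularlyRealizable K₀ W →
      ∀ (K : Type) [Field K] [NumberField K] [Algebra K₀ K], Asymp K d G

/-- The group `C₂ ≀ H` exists, and it satisfies the asymptotic formula over every number field. -/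
def HoldsForAll (H : Type) [Group H] : Prop :=
  HasWreath H ∧ ∀ (d : ℕ) (G : Subgroup (Equiv.Perm (Fin d))), IsC2Wreath H G →
    ∀ (K : Type) [Field K] [NumberField K], Asymp K d G

section

theorem exists_group (H : Type) [Group H] [Finite H] : HasWreath H := by
  have hcard : Nat.card (H × Bool) = 2 * Nat.card H := by
    rw [Nat.card_prod, mul_comm]
    simp
  let f : Fin (2 * Nat.card H) ≃ H × Bool := (Finite.equivFinOfCardEq hcard).symm
  let G : Subgroup (Equiv.Perm (Fin (2 * Nat.card H))) :=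
    { carrier := {π | ∃ h : H, ∀ i, (f (π i)).1 = h * (f i).1}
      one_mem' := ⟨1, fun i => by simp⟩
      mul_mem' := by
        rintro π ρ ⟨h, hh⟩ ⟨h', hh'⟩
        refine ⟨h * h', fun i => ?_⟩
        rw [Equiv.Perm.mul_apply, hh, hh', mul_assoc]
      inv_mem' := by
        rintro π ⟨h, hh⟩
        refine ⟨h⁻¹, fun i => ?_⟩
        have h1 := hh (π⁻¹ i)
        rw [show π (π⁻¹ i) = i from π.apply_symm_apply i] at h1
        rw [h1, inv_mul_cancel_left] }
  refine ⟨2 * Nat.card H, G, rfl, ⟨f, fun π => Iff.rfl⟩, fun i j => ?_⟩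
  let t : Equiv.Perm (H × Bool) :=
    (Equiv.mulLeft ((f j).1 * (f i).1⁻¹)).prodCongr (Equiv.swap (f i).2 (f j).2)
  refine ⟨f.trans (t.trans f.symm), ⟨(f j).1 * (f i).1⁻¹, fun x => ?_⟩, ?_⟩
  · simp [t]
  · change f.symm (t (f i)) = j
    rw [Equiv.symm_apply_eq]
    exact Prod.ext (by simp [t]) (by simp [t])

variable {H : Type} [Group H] [Finite H] {d : ℕ} {G : Subgroup (Equiv.Perm (Fin d))}

theorem minInd_eq (hG : IsC2Wreath H G) : minInd G = 1 :=
  (Pool.Agent.TH444.ML.least_ind hG).csInf_eq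

theorem beta_eq (K : Type) [Field K] [CharZero K] (h2 : 2 ≤ Nat.card H) (hG : IsC2Wreath H G) :
    beta K G = 1 := by
  have hm := minInd_eq hG
  have hf : Finite G := Finite.of_injective Subtype.val Subtype.val_injective
  have hne : NeZero (Nat.card G) := ⟨Nat.card_pos.ne'⟩
  have hcz : CharZero (AlgebraicClosure K) :=
    charZero_of_injective_algebraMap (algebraMap K (AlgebraicClosure K)).injective
  have hne' : NeZero ((Nat.card G : ℕ) : AlgebraicClosure K) := ⟨by
    exact_mod_cast Nat.card_pos.ne'⟩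
  obtain ⟨ζ, hζ⟩ := HasEnoughRootsOfUnity.exists_primitiveRoot (AlgebraicClosure K) (Nat.card G)
  rw [beta, Nat.card_eq_one_iff_unique]
  constructor
  · constructor
    intro x y
    induction x using Quot.ind with | _ g => ?_
    induction y using Quot.ind with | _ h => ?_
    refine Quot.sound ⟨ζ, 1, 1, hζ, ?_, ?_⟩
    · rw [pow_one]
      rfl
    · rw [pow_one]
      exact Pool.Agent.TH444.ML.conj_of_ind_one h2 hG g.1 h.1 (g.2.trans hm) (h.2.trans hm)
  · obtain ⟨g, hg, -, h1⟩ := Pool.Agent.TH444.ML.exists_ind_one hG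
    exact ⟨Quot.mk _ ⟨⟨g, hg⟩, by rw [hm]; exact h1⟩⟩

theorem asymp_of (K : Type) [Field K] [NumberField K] (h2 : 2 ≤ Nat.card H) (U : Subgroup H)
    (hU : U.normalCore = ⊥) (hc : 8 * U.index * (U.index + 1) ≤ Nat.card H)
    (hG : IsC2Wreath H G) (hr : Realizable K H) : Asymp K d G := by
  obtain ⟨C, hC, hlim⟩ := Pool.Agent.TH444.ML.asymp_iso Pool.Agent.TH444.ML.rest K H h2 U hU hc
    (Pool.Agent.Y793.gal_of_real K (AlgebraicClosure K) H hr) G hG
  refine ⟨C, hC, ?_⟩
  rw [minInd_eq hG, beta_eq K h2 hG]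
  have h : ∀ B : ℝ, (N K d G B : ℝ) / (B ^ (1 / ((1 : ℕ) : ℝ)) * Real.log B ^ (1 - 1)) =
      (N K d G B : ℝ) / B := by
    intro B
    simp
  simp only [h]
  exact hlim

theorem empty_of (K : Type) [Field K] [NumberField K] (hG : IsC2Wreath H G)
    (hr : ¬ Realizable K H) (B : ℝ) : Ext K d G B = ∅ := by
  rw [Set.eq_empty_iff_forall_notMem]
  intro L hL
  apply hr
  have h1 : L ∈ Pool.Agent.TH444.ML.Cnt K G B := hL
  rw [Pool.Agent.TH444.ML.cnt_eq K hG] at h1
  obtain ⟨M, hM⟩ := (Pool.Agent.TH365.J3099.wrIff K (AlgebraicClosure K) H L).1 ⟨h1.1, h1.2.1⟩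
  obtain ⟨-, h3, ⟨e⟩⟩ := hM.1
  exact ⟨M, inferInstance, inferInstance, h3, ⟨e.symm⟩⟩

theorem real_of_reg (W : Type) [Group W] [Finite W] (K₀ : Type) [Field K₀] [NumberField K₀]
    (h : RegularlyRealizable K₀ W) (K : Type) [Field K] [NumberField K] [Algebra K₀ K] :
    Realizable K W := by
  have hinf : Infinite K := CharZero.infinite K
  exact Pool.Agent.Y793.hil_out K W (Pool.Agent.H391R2.T4.hilb_numberField K)
    (Pool.Agent.TH444.TW.reg_base K₀ K W (Pool.Agent.TH444.TW.regSol_of_regularOver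
      ((Pool.Agent.N70.EP.regularly_iff K₀ W).1 h)))

theorem governed_of (H W : Type) [Group H] [Finite H] [Group W] [Finite W]
    (h2 : 2 ≤ Nat.card H) (U : Subgroup H) (hU : U.normalCore = ⊥)
    (hc : 8 * U.index * (U.index + 1) ≤ Nat.card H)
    (h : ∀ (K : Type) [Field K] [NumberField K], Realizable K H ↔ Realizable K W) :
    Governed H W := by
  intro d G hG
  refine ⟨fun K _ _ => ⟨fun hr => asymp_of K h2 U hU hc hG ((h K).2 hr),
    fun hr => empty_of K hG fun h3 => hr ((h K).1 h3)⟩, fun K₀ _ _ hr K _ _ _ => ?_⟩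
  exact asymp_of K h2 U hU hc hG ((h K).2 (real_of_reg W K₀ hr K))

theorem alt_of (A : Type) [Group A] [Finite A] (n : ℕ) (hn : 10 ≤ n)
    (h : Pool.Agent.N70.EP.Voc.AltRealizable A n) : HoldsForAll (AltWreath A n) := by
  have hW : Finite (Pool.Agent.N70.EP.Voc.Wreath A n) :=
    Finite.of_injective (fun w : Pool.Agent.N70.EP.Voc.Wreath A n => (w.left, w.right)) (by
      intro w w' h
      exact SemidirectProduct.ext (congrArg Prod.fst h) (congrArg Prod.snd h))
  have hf : Finite (AltWreath A n) := Finite.of_injective Subtype.val Subtype.val_injective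
  obtain ⟨h2, U, hU, hc⟩ : 2 ≤ Nat.card (AltWreath A n) ∧ ∃ U : Subgroup (AltWreath A n),
    U.normalCore = ⊥ ∧ 8 * U.index * (U.index + 1) ≤ Nat.card (AltWreath A n) :=
    Pool.Agent.Y793.awr_data A n hn
  exact ⟨exists_group _, fun d G hG K _ _ => asymp_of K h2 U hU hc hG ((h K).2.2 inferInstance)⟩

end

end Pool.Agent.Results.MP_b39724_nt.OrderTwoOverLargeFields

open Pool.Agent.Results.MP_b39724_nt.OrderTwoOverLargeFields in
open Pool.Agent.N70.EP.Voc (AltWreath TwPow IsSplittingIndex) in
open Pool.Agent.N70.EO.Voc (AlmostAllNumbers) in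
open Pool.Agent.N70.ES.Voc (TwGood EvenFamily OddFamily) in
/-- Malle's conjecture for `G = C₂ ≀ H` over number fields: the case of all `H` with a core-free
subgroup `U` with `8 [H : U] ([H : U] + 1) ≤ |H|`; for every finite group `A` and `H = A ≀ A_n`, over all
number fields, for almost all `n`, and for all `n` of the forms described by `EvenFamily` and
`OddFamily`; alternating fibre powers of homomorphisms `α : B → W`, over exactly the number fields over
which `W` is a Galois group. -/
theorem Pool.Agent.Results.MP_b39724_nt.OrderTwoOverLargeFields.result :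
    (∀ (H : Type) [Group H] [Finite H], 2 ≤ Nat.card H → ∀ U : Subgroup H, U.normalCore = ⊥ →
      8 * U.index * (U.index + 1) ≤ Nat.card H → HasWreath H ∧ Governed H H) ∧
    (∀ (A : Type) [Group A] [Finite A],
      AlmostAllNumbers (fun n => HoldsForAll (AltWreath A n)) ∧
      EvenFamily (fun n => HoldsForAll (AltWreath A n)) ∧
      OddFamily (Nat.card A) (fun n => HoldsForAll (AltWreath A n))) ∧
    ∀ (W B : Type) [Group W] [Finite W] [Group B] [Finite B] (α : B →* W),
      Function.Surjective α → ∀ I : ℕ, IsSplittingIndex α I →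
      AlmostAllNumbers (fun n => ∀ χ : W →* ℤˣ, TwGood α I n χ →
        HasWreath (TwPow α χ n) ∧ Governed (TwPow α χ n) W) := by
  refine ⟨?_, ?_, ?_⟩
  · intro H _ _ h2 U hU hc
    exact ⟨exists_group H, governed_of H H h2 U hU hc fun K _ _ => Iff.rfl⟩
  · intro A _ _
    refine ⟨Pool.Agent.N70.EO.aan_mono (Pool.Agent.N70.EO.aan_and
      (Pool.Agent.N70.EO.alt_dens8 A) (Pool.Agent.N70.EO.aan_large 10 fun n hn => hn))
      fun n hn => alt_of A n hn.2 hn.1, ?_, ?_⟩
    · intro q hq hq4
      obtain ⟨r₀, hr₀⟩ := Pool.Agent.N70.EQ.alt_struct7 Pool.Agent.N70.EQ.hyp A q hq hq4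
      refine ⟨r₀ + 1, fun r hr => ?_⟩
      obtain ⟨k₀, hk₀⟩ := hr₀ r (by omega)
      refine ⟨k₀ + 1, fun k hk => alt_of A _ ?_ (hk₀ k (by omega))⟩
      have h1 : 4 * 1 * 3 ≤ q * r * (2 * k + 1) :=
        Nat.mul_le_mul (Nat.mul_le_mul hq4 (by omega)) (by omega)
      omega
    · intro u hu3 hu
      obtain ⟨r₀, hr₀⟩ := Pool.Agent.N70.EO.alt_struct8 A u hu3 hu
      refine ⟨r₀ + 1, fun r hr hodd => ?_⟩
      obtain ⟨k₀, hk₀⟩ := hr₀ r (by omega) hodd
      refine ⟨k₀ + 2, fun k hk => alt_of A _ ?_ (hk₀ k (by omega))⟩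
      have h1 : 3 * 1 * 5 ≤ u * r * (2 * k + 1) :=
        Nat.mul_le_mul (Nat.mul_le_mul (by omega) (by omega)) (by omega)
      omega
  · intro W B _ _ _ _ α hα I hI
    refine Pool.Agent.N70.EO.aan_mono (Pool.Agent.N70.EO.aan_and (Pool.Agent.N70.EO.aan_and
      (Pool.Agent.N70.EO.twIff_dens8 α hα I hI) (Pool.Agent.N70.ES.twIff_dens9 α hα))
      (Pool.Agent.N70.EO.aan_large (4 * Nat.card B ^ 2 + 11) fun n hn => hn)) ?_
    rintro n ⟨⟨h, h'⟩, hn⟩ χ hχ
    obtain ⟨hf, h2, U, hU, hc⟩ := Pool.Agent.N840.MA.tw_data α χ n hn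
    have key : Pool.Agent.N70.EP.Voc.TwIff α χ n := by
      rcases hχ with h3 | ⟨h3, h4⟩ | ⟨rfl, h3⟩
      · exact h' χ h3
      · exact h.1 h3 h4 χ
      · exact h.2 h3
    exact ⟨exists_group _, governed_of _ W h2 U hU hc fun K _ _ => (key K).2.2 inferInstance⟩
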